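import Pool.Agent.N425.KZ1

/-!
# Path-chromatic number and clique minors for path-decompositions with dense bags

Let `G` be a finite graph without a `K_{t+1}` minor that has a path-decomposition such that for every bag
`B` and every `v ∈ B` the vertices of `B` not adjacent to `v` induce an `r`-colourable graph.  Then the
path-chromatic number of `G` is at most `t + c (r + 1) ^ 10`.  If no bag is the union of a clique and a set
inducing a `c (r + 1) ^ 36 (E + 1) ^ 4`-colourable graph, it is even at most `t - E`, for every `E ≤ t`.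
Here `c` is an absolute constant.

The proof applies to the subgraphs induced by the bags the following theorem (`KZ.glob`): if in a finite
graph `H` the non-neighbours of every vertex induce an `r`-colourable graph, then
`h(H) ≥ χ(H) - c (r + 1) ^ 10`, and `h(H) ≥ χ(H) + E` unless `H` is a clique plus a
`c (r + 1) ^ 36 (E + 1) ^ 4`-colourable graph; `h` is the largest `m` such that `K_m` is a minor.
-/

set_option autoImplicit false

namespace Pool.Agent.Results.MP_8d69a1_co.DenseBags

/-- `K_m` is a minor of `G`: there are `m` pairwise disjoint vertex sets, each inducing a connected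
subgraph, with an edge of `G` between any two of them. -/
def HasCliqueMinor {U : Type} (G : SimpleGraph U) (m : ℕ) : Prop :=
  ∃ B : Fin m → Set U,
    (∀ i, (G.induce (B i)).Connected) ∧
    (∀ i j, i ≠ j → Disjoint (B i) (B j)) ∧
    (∀ i j, i ≠ j → ∃ u ∈ B i, ∃ w ∈ B j, G.Adj u w)

/-- `B` is a path-decomposition of `G` -/
def IsPathDecomposition {V : Type} (G : SimpleGraph V) {n : ℕ} (B : Fin n → Set V) : Prop :=
  (∀ v, ∃ i, v ∈ B i) ∧ (∀ u v, G.Adj u v → ∃ i, u ∈ B i ∧ v ∈ B i) ∧
    ∀ (v : V) (i j k : Fin n), i ≤ j → j ≤ k → v ∈ B i → v ∈ B k → v ∈ B j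

/-- the path-chromatic number of `G` is at most `k` -/
def PathChromaticLE {V : Type} (G : SimpleGraph V) (k : ℕ) : Prop :=
  ∃ (n : ℕ) (B : Fin n → Set V), IsPathDecomposition G B ∧ ∀ i, (G.induce (B i)).Colorable k

/-- `S` is the union of a clique and a set that induces a `k`-colourable graph -/
def CliquePlus {V : Type} (G : SimpleGraph V) (S : Set V) (k : ℕ) : Prop :=
  ∃ K ⊆ S, G.IsClique K ∧ (G.induce (S \ K)).Colorable k

/-- **Path-decompositions with dense bags.** -/
theorem result : ∃ c : ℕ, ∀ (r t : ℕ) (V : Type) [Finite V] (G : SimpleGraph V),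
    ¬ HasCliqueMinor G (t + 1) →
    ∀ (n : ℕ) (B : Fin n → Set V), IsPathDecomposition G B →
    (∀ i, ∀ v ∈ B i, (G.induce {w | w ∈ B i ∧ w ≠ v ∧ ¬ G.Adj v w}).Colorable r) →
      PathChromaticLE G (t + c * (r + 1) ^ 10) ∧
      ∀ E ≤ t, (∀ i, ¬ CliquePlus G (B i) (c * ((r + 1) ^ 36 * (E + 1) ^ 4))) →
        PathChromaticLE G (t - E) := by
  obtain ⟨c, hc⟩ := Pool.Agent.N425.KZ.bags
  refine ⟨c, ?_⟩
  intro r t V _ G hminor n B hB h
  refine ⟨⟨n, B, hB, fun x => (hc r t V G (B x) (h x) hminor).2⟩, ?_⟩
  intro E hE hx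
  exact ⟨n, B, hB, fun x => ((hc r t V G (B x) (h x) hminor).1 E hE).resolve_right (hx x)⟩

end Pool.Agent.Results.MP_8d69a1_co.DenseBags
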